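import Pool.Agent.Leo4.Stmts

/-! BIQ: Leopoldt's conjecture for a biquadratic extension, from three subfields. -/

set_option autoImplicit false

open NumberField Module Filter Topology
open Pool.Agent.Helper85_Leo

namespace Pool.Agent.Leo4.H90

/-! ### A maximal independent subfamily -/

theorem zpow_sum {G ι : Type} [CommGroup G] (x : G) (f : ι → ℤ) {s : Finset ι} :
    x ^ ∑ i ∈ s, f i = ∏ i ∈ s, x ^ f i := by
  classical
  induction s using Finset.induction_on with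
  | empty => simp
  | insert i s hi ih => rw [Finset.sum_insert hi, Finset.prod_insert hi, zpow_add, ih]

/-- multiplicative independence -/
def Ind {G : Type} [CommGroup G] {r : ℕ} (u : Fin r → G) : Prop :=
  ∀ c : Fin r → ℤ, ∏ j, u j ^ c j = 1 → c = 0

theorem Ind.inj {G : Type} [CommGroup G] {n r : ℕ} {u : Fin n → G} {σ : Fin r → Fin n}
    (h : Ind (fun j => u (σ j))) : Function.Injective σ := by
  intro j j' hjj
  by_contra hne
  have h1 := h (Pi.single j 1 - Pi.single j' 1) (by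
    have : ∀ l, u (σ l) ^ ((Pi.single j 1 - Pi.single j' 1 : Fin r → ℤ) l) =
        (if l = j then u (σ j) else 1) * (if l = j' then (u (σ j'))⁻¹ else 1) := by
      intro l
      rw [Pi.sub_apply, Pi.single_apply, Pi.single_apply]
      by_cases h1 : l = j
      · have h2 : l ≠ j' := fun h => hne (h1.symm.trans h)
        rw [if_pos h1, if_neg h2, if_pos h1, if_neg h2, h1]
        simp
      · by_cases h2 : l = j'
        · rw [if_neg h1, if_pos h2, if_neg h1, if_pos h2, h2]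
          simp
        · rw [if_neg h1, if_neg h2, if_neg h1, if_neg h2]
          simp
    rw [Finset.prod_congr rfl (fun l _ => this l), Finset.prod_mul_distrib,
      Finset.prod_ite_eq' Finset.univ j, Finset.prod_ite_eq' Finset.univ j',
      if_pos (Finset.mem_univ _), if_pos (Finset.mem_univ _), hjj, mul_inv_cancel])
  have h2 := congrFun h1 j
  rw [Pi.sub_apply, Pi.single_eq_same, Pi.single_eq_of_ne hne] at h2
  simp at h2

theorem exists_max {G : Type} [CommGroup G] {n : ℕ} (u : Fin n → G) :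
    ∃ (r : ℕ) (σ : Fin r → Fin n) (w : ℕ) (A : Fin n → Fin r → ℤ), 0 < w ∧
      Ind (fun j => u (σ j)) ∧ ∀ i, u i ^ (w : ℤ) = ∏ j, u (σ j) ^ A i j := by
  classical
  have hex : ∃ r : ℕ, ∃ σ : Fin r → Fin n, Ind (fun j => u (σ j)) :=
    ⟨0, Fin.elim0, fun c _ => funext fun j => j.elim0⟩
  have hbd : ∀ r : ℕ, (∃ σ : Fin r → Fin n, Ind (fun j => u (σ j))) → r ≤ n := by
    rintro r ⟨σ, hσ⟩
    have := Fintype.card_le_of_injective σ hσ.inj
    simpa using this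
  obtain ⟨r, ⟨σ, hσ⟩, hmax⟩ : ∃ r : ℕ, (∃ σ : Fin r → Fin n, Ind (fun j => u (σ j))) ∧
      ∀ r' : ℕ, (∃ σ : Fin r' → Fin n, Ind (fun j => u (σ j))) → r' ≤ r := by
    have h1 := Nat.findGreatest_spec (P := fun r => ∃ σ : Fin r → Fin n, Ind (fun j => u (σ j)))
      (Nat.zero_le n) (show ∃ σ : Fin 0 → Fin n, Ind (fun j => u (σ j)) from
        ⟨Fin.elim0, fun c _ => funext fun j => j.elim0⟩)
    exact ⟨_, h1, fun r' hr' => Nat.le_findGreatest (hbd r' hr') hr'⟩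
  have key : ∀ i, ∃ (w : ℕ) (A : Fin r → ℤ), 0 < w ∧ u i ^ (w : ℤ) = ∏ j, u (σ j) ^ A j := by
    intro i
    have h1 : ¬ Ind (fun j : Fin (r + 1) => u ((Fin.cons i σ : Fin (r + 1) → Fin n) j)) := by
      intro h
      have := hmax (r + 1) ⟨Fin.cons i σ, h⟩
      omega
    unfold Ind at h1
    push Not at h1
    obtain ⟨c, hc1, hc2⟩ := h1
    rw [Fin.prod_univ_succ] at hc1
    simp only [Fin.cons_zero, Fin.cons_succ] at hc1
    have hc0 : c 0 ≠ 0 := by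
      intro h0
      rw [h0, zpow_zero, one_mul] at hc1
      have h3 := hσ (fun j => c j.succ) hc1
      apply hc2
      funext j
      refine Fin.cases h0 (fun j => ?_) j
      exact congrFun h3 j
    have h4 : u i ^ c 0 = ∏ j, u (σ j) ^ (-c (Fin.succ j)) := by
      rw [eq_inv_of_mul_eq_one_left hc1, ← Finset.prod_inv_distrib]
      exact Finset.prod_congr rfl fun j _ => by rw [zpow_neg]
    rcases lt_or_gt_of_ne hc0 with h | h
    · refine ⟨(-c 0).toNat, fun j => c (Fin.succ j), by omega, ?_⟩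
      have h5 : (((-c 0).toNat : ℕ) : ℤ) = -c 0 := by omega
      rw [h5, zpow_neg, h4, ← Finset.prod_inv_distrib]
      exact Finset.prod_congr rfl fun j _ => by rw [zpow_neg, inv_inv]
    · refine ⟨(c 0).toNat, fun j => -c (Fin.succ j), by omega, ?_⟩
      have h5 : (((c 0).toNat : ℕ) : ℤ) = c 0 := by omega
      rw [h5, h4]
  choose w A hw hA using key
  refine ⟨r, σ, ∏ i, w i, fun i j => A i j * (∏ l ∈ Finset.univ.erase i, w l : ℕ),
    Finset.prod_pos fun i _ => hw i, hσ, fun i => ?_⟩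
  have h1 : (∏ i, w i) = w i * ∏ l ∈ Finset.univ.erase i, w l :=
    (Finset.mul_prod_erase _ _ (Finset.mem_univ i)).symm
  rw [h1, Nat.cast_mul, zpow_mul, hA i, ← Finset.prod_zpow]
  exact Finset.prod_congr rfl fun j _ => by rw [zpow_mul]

/-! ### Leopoldt's conjecture for dependent families -/

theorem leo_gen {K : Type} [Field K] [NumberField K] {p : ℕ} [Fact p.Prime]
    (hK : LeopoldtAt K p) {n : ℕ} (u : Fin n → (𝓞 K)ˣ)
    (hu : ∀ i, ((u i : 𝓞 K) - 1) ∈ (Ideal.span {((p : ℕ) : 𝓞 K)}).radical) :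
    ∃ (r : ℕ) (A : Fin n → Fin r → ℤ) (w : ℕ), 0 < w ∧
      (∀ c : Fin n → ℤ, (∀ j, ∑ i, c i * A i j = 0) → (∏ i, u i ^ c i) ^ w = 1) ∧
      ∀ (a : Fin n → ℤ_[p]) (m : ℕ → Fin n → ℤ),
        (∀ i, Tendsto (fun k => ((m k i : ℤ) : ℤ_[p])) atTop (𝓝 (a i))) →
        (∀ N : ℕ, ∀ᶠ k in atTop,
          ((p : ℕ) : 𝓞 K) ^ N ∣ (((∏ i, u i ^ m k i : (𝓞 K)ˣ) : 𝓞 K) - 1)) →
        ∀ j, ∑ i, a i * (A i j : ℤ_[p]) = 0 := by
  obtain ⟨r, σ, w, A, hw, hσ, hA⟩ := exists_max u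
  have hpow : ∀ c : Fin n → ℤ, (∏ i, u i ^ c i) ^ w = ∏ j, u (σ j) ^ (∑ i, c i * A i j) := by
    intro c
    have h1 : ∀ i, (u i ^ c i) ^ w = ∏ j, u (σ j) ^ (c i * A i j) := by
      intro i
      rw [← zpow_natCast, ← zpow_mul, mul_comm (c i), zpow_mul, hA i, ← Finset.prod_zpow]
      exact Finset.prod_congr rfl fun j _ => by rw [← zpow_mul, mul_comm]
    rw [← Finset.prod_pow, Finset.prod_congr rfl fun i _ => h1 i, Finset.prod_comm]
    refine Finset.prod_congr rfl fun j _ => ?_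
    exact (zpow_sum _ _).symm
  refine ⟨r, A, w, hw, ?_, ?_⟩
  · intro c hc
    rw [hpow c]
    exact Finset.prod_eq_one fun j _ => by rw [hc j, zpow_zero]
  · intro a m ha hm
    have h1 := hK r (fun j => u (σ j)) (fun j => hu (σ j)) hσ (fun j => ∑ i, a i * (A i j : ℤ_[p]))
      (fun k j => ∑ i, m k i * A i j) ?_ ?_
    · intro j
      exact congrFun h1 j
    · intro j
      push_cast
      exact tendsto_finsetSum _ fun i _ => (ha i).mul_const _
    · intro N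
      filter_upwards [hm N] with k hk
      rw [← hpow (m k), Units.val_pow_eq_pow_val]
      exact hk.trans (sub_one_dvd_pow_sub_one _ _)

/-! ### Linear algebra -/

theorem gram {p : ℕ} [Fact p.Prime] {n : ℕ} {κ : Type} [Fintype κ] (A : Fin n → κ → ℤ)
    (hind : ∀ c : Fin n → ℤ, (∀ j, ∑ i, c i * A i j = 0) → c = 0)
    (a : Fin n → ℤ_[p]) (ha : ∀ j, ∑ i, a i * (A i j : ℤ_[p]) = 0) : a = 0 := by
  classical
  obtain ⟨G, hG⟩ : ∃ G : Matrix (Fin n) (Fin n) ℤ, G = Matrix.of A * (Matrix.of A).transpose :=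
    ⟨_, rfl⟩
  have hdet : G.det ≠ 0 := by
    intro h0
    obtain ⟨c, hc0, hc⟩ := Matrix.exists_vecMul_eq_zero_iff.2 h0
    apply hc0
    apply hind c
    have h1 : ∑ j, (∑ i, c i * A i j) ^ 2 = 0 := by
      have h2 : Matrix.vecMul c G ⬝ᵥ c = 0 := by rw [hc, zero_dotProduct]
      rw [hG, ← Matrix.vecMul_vecMul] at h2
      have h3 : Matrix.vecMul (Matrix.vecMul c (Matrix.of A)) (Matrix.of A).transpose ⬝ᵥ c =
          Matrix.vecMul c (Matrix.of A) ⬝ᵥ Matrix.vecMul c (Matrix.of A) := by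
        rw [Matrix.vecMul_transpose, dotProduct_comm, Matrix.dotProduct_mulVec]
      rw [h3] at h2
      rw [← h2]
      exact Finset.sum_congr rfl fun j _ => by
        rw [sq]
        rfl
    intro j
    have h2 := (Finset.sum_eq_zero_iff_of_nonneg (fun j _ => sq_nonneg _)).1 h1 j
      (Finset.mem_univ j)
    exact pow_eq_zero_iff (two_ne_zero) |>.1 h2
  have hdet' : (G.map (Int.castRingHom ℤ_[p])).det ≠ 0 := by
    have h1 : (G.map (Int.castRingHom ℤ_[p])).det = ((G.det : ℤ) : ℤ_[p]) := by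
      rw [← RingHom.mapMatrix_apply, ← RingHom.map_det]
      rfl
    rw [h1]
    exact_mod_cast hdet
  have h1 : Matrix.vecMul a (G.map (Int.castRingHom ℤ_[p])) = 0 := by
    have h2 : G.map (Int.castRingHom ℤ_[p]) =
        (Matrix.of A).map (Int.castRingHom ℤ_[p]) * ((Matrix.of A).transpose).map
          (Int.castRingHom ℤ_[p]) := by
      rw [hG, Matrix.map_mul]
    rw [h2, ← Matrix.vecMul_vecMul]
    have h3 : Matrix.vecMul a ((Matrix.of A).map (Int.castRingHom ℤ_[p])) = 0 := by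
      funext j
      exact ha j
    rw [h3, Matrix.zero_vecMul]
  by_contra hne
  exact hdet' (Matrix.exists_vecMul_eq_zero_iff.1 ⟨a, hne, h1⟩)

/-! ### Descent to a subfield -/

/-- the inclusion of the ring of integers -/
noncomputable abbrev cl (K : Type) [Field K] : 𝓞 K →+* K := algebraMap (𝓞 K) K

theorem cl_inj {K : Type} [Field K] [NumberField K] {x y : 𝓞 K} (h : cl K x = cl K y) : x = y :=
  RingOfIntegers.coe_injective h

theorem cl_int {K : Type} [Field K] [NumberField K] (x : 𝓞 K) : IsIntegral ℤ (cl K x) :=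
  RingOfIntegers.isIntegral_coe x

theorem exists_cl {K : Type} [Field K] [NumberField K] {y : K} (h : IsIntegral ℤ y) :
    ∃ x : 𝓞 K, cl K x = y := ⟨⟨y, h⟩, rfl⟩

theorem coe_prod_zpow {K : Type} [Field K] [NumberField K] {n : ℕ} (u : Fin n → (𝓞 K)ˣ)
    (c : Fin n → ℤ) : cl K ((∏ i, u i ^ c i : (𝓞 K)ˣ) : 𝓞 K) =
      ∏ i, cl K (u i : 𝓞 K) ^ c i := by
  have h1 : ∀ x : (𝓞 K)ˣ, cl K (x : 𝓞 K) =
      ((Units.map (algebraMap (𝓞 K) K).toMonoidHom x : Kˣ) : K) := fun x => rfl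
  rw [h1, map_prod, Units.coe_prod]
  refine Finset.prod_congr rfl fun i _ => ?_
  rw [map_zpow, Units.val_zpow_eq_zpow_val]
  rfl

theorem descend {E L : Type} [Field E] [NumberField E] [Field L] [NumberField L] [Algebra E L]
    {p : ℕ} (hp : p ≠ 0) (N : ℕ) {y : 𝓞 E} {z : 𝓞 L} (hyz : algebraMap E L (cl E y) = cl L z)
    (h : ((p : ℕ) : 𝓞 L) ^ N ∣ z) : ((p : ℕ) : 𝓞 E) ^ N ∣ y := by
  obtain ⟨t, ht⟩ := h
  have hp0 : ((p : ℕ) : E) ^ N ≠ 0 := pow_ne_zero _ (by exact_mod_cast hp)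
  have hp1 : ((p : ℕ) : L) ^ N ≠ 0 := pow_ne_zero _ (by exact_mod_cast hp)
  have h1 : algebraMap E L (cl E y / (p : E) ^ N) = cl L t := by
    rw [map_div₀, hyz, map_pow, map_natCast, ht, map_mul, map_pow, map_natCast, div_eq_iff hp1,
      mul_comm]
  have h2 : IsIntegral ℤ (cl E y / (p : E) ^ N) := by
    have h3 : IsIntegral ℤ (algebraMap E L (cl E y / (p : E) ^ N)) := by
      rw [h1]
      exact cl_int t
    exact (isIntegral_algebraMap_iff (algebraMap E L).injective).1 h3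
  obtain ⟨q, hq⟩ := exists_cl h2
  refine ⟨q, ?_⟩
  apply cl_inj
  rw [map_mul, hq, map_pow, map_natCast, mul_div_cancel₀ _ hp0]

/-! ### The norm step -/

theorem norm_step {E L : Type} [Field E] [NumberField E] [Field L] [NumberField L] [Algebra E L]
    {p : ℕ} [hp : Fact p.Prime] (h : L →+* L) (hh : ∀ x, h (h x) = x)
    (hfix : ∀ x, h x = x → ∃ y : E, algebraMap E L y = x) (hE : LeopoldtAt E p)
    {n : ℕ} (ε : Fin n → (𝓞 L)ˣ)
    (hε : ∀ i, ((ε i : 𝓞 L) - 1) ∈ (Ideal.span {((p : ℕ) : 𝓞 L)}).radical) :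
    ∃ (r : ℕ) (A : Fin n → Fin r → ℤ) (w : ℕ), 0 < w ∧
      (∀ c : Fin n → ℤ, (∀ j, ∑ i, c i * A i j = 0) →
        cl L ((∏ i, ε i ^ c i : (𝓞 L)ˣ) : 𝓞 L) ^ w *
          h (cl L ((∏ i, ε i ^ c i : (𝓞 L)ˣ) : 𝓞 L) ^ w) = 1) ∧
      ∀ (a : Fin n → ℤ_[p]) (m : ℕ → Fin n → ℤ),
        (∀ i, Tendsto (fun k => ((m k i : ℤ) : ℤ_[p])) atTop (𝓝 (a i))) →
        (∀ N : ℕ, ∀ᶠ k in atTop,
          ((p : ℕ) : 𝓞 L) ^ N ∣ (((∏ i, ε i ^ m k i : (𝓞 L)ˣ) : 𝓞 L) - 1)) →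
        ∀ j, ∑ i, a i * (A i j : ℤ_[p]) = 0 := by
  have hp0 : p ≠ 0 := hp.out.ne_zero
  -- the conjugate of an integer
  have hconj : ∀ x : 𝓞 L, ∃ y : 𝓞 L, cl L y = h (cl L x) := fun x =>
    exists_cl (map_isIntegral_int h (cl_int x))
  have hconjdvd : ∀ (N : ℕ) (x y : 𝓞 L), cl L y = h (cl L x) → ((p : ℕ) : 𝓞 L) ^ N ∣ x →
      ((p : ℕ) : 𝓞 L) ^ N ∣ y := by
    rintro N x y hxy ⟨t, ht⟩
    obtain ⟨s, hs⟩ := hconj t
    refine ⟨s, ?_⟩
    apply cl_inj
    rw [hxy, ht, map_mul, map_mul, map_mul, hs, map_pow, map_pow, map_natCast, map_natCast]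
  -- the norms
  have hnorm : ∀ x : (𝓞 L)ˣ, ∃ u : (𝓞 E)ˣ, algebraMap E L (cl E (u : 𝓞 E)) =
      cl L (x : 𝓞 L) * h (cl L (x : 𝓞 L)) := by
    intro x
    have h1 : ∀ x : L, IsIntegral ℤ x → ∃ u : 𝓞 E, algebraMap E L (cl E u) = x * h x := by
      intro x hx
      obtain ⟨y, hy⟩ := hfix (x * h x) (by rw [map_mul, hh, mul_comm])
      have h2 : IsIntegral ℤ y := by
        have h3 : IsIntegral ℤ (algebraMap E L y) := by
          rw [hy]
          exact hx.mul (map_isIntegral_int h hx)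
        exact (isIntegral_algebraMap_iff (algebraMap E L).injective).1 h3
      obtain ⟨u, hu⟩ := exists_cl h2
      exact ⟨u, by rw [hu, hy]⟩
    obtain ⟨u, hu⟩ := h1 _ (cl_int (x : 𝓞 L))
    obtain ⟨v, hv⟩ := h1 _ (cl_int ((x⁻¹ : (𝓞 L)ˣ) : 𝓞 L))
    have huv : u * v = 1 := by
      apply cl_inj
      apply (algebraMap E L).injective
      rw [map_mul, map_mul, hu, hv, map_one, map_one]
      have h4 : cl L (x : 𝓞 L) * cl L ((x⁻¹ : (𝓞 L)ˣ) : 𝓞 L) = 1 := by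
        rw [← map_mul, Units.mul_inv, map_one]
      calc cl L (x : 𝓞 L) * h (cl L (x : 𝓞 L)) *
            (cl L ((x⁻¹ : (𝓞 L)ˣ) : 𝓞 L) * h (cl L ((x⁻¹ : (𝓞 L)ˣ) : 𝓞 L)))
          = (cl L (x : 𝓞 L) * cl L ((x⁻¹ : (𝓞 L)ˣ) : 𝓞 L)) *
            h (cl L (x : 𝓞 L) * cl L ((x⁻¹ : (𝓞 L)ˣ) : 𝓞 L)) := by
            rw [map_mul h]
            ring
        _ = 1 := by rw [h4, map_one, mul_one]
    exact ⟨⟨u, v, huv, by rw [mul_comm]; exact huv⟩, hu⟩
  choose u hu using fun i => hnorm (ε i)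
  -- products
  have hprod : ∀ c : Fin n → ℤ, algebraMap E L (cl E ((∏ i, u i ^ c i : (𝓞 E)ˣ) : 𝓞 E)) =
      cl L ((∏ i, ε i ^ c i : (𝓞 L)ˣ) : 𝓞 L) *
        h (cl L ((∏ i, ε i ^ c i : (𝓞 L)ˣ) : 𝓞 L)) := by
    intro c
    rw [coe_prod_zpow, coe_prod_zpow, map_prod, map_prod, ← Finset.prod_mul_distrib]
    refine Finset.prod_congr rfl fun i _ => ?_
    rw [map_zpow₀, hu i, map_zpow₀, mul_zpow]
  -- congruences
  have hcong : ∀ (N : ℕ) (x : (𝓞 L)ˣ) (y : (𝓞 E)ˣ), algebraMap E L (cl E (y : 𝓞 E)) =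
      cl L (x : 𝓞 L) * h (cl L (x : 𝓞 L)) → ((p : ℕ) : 𝓞 L) ^ N ∣ ((x : 𝓞 L) - 1) →
      ((p : ℕ) : 𝓞 E) ^ N ∣ ((y : 𝓞 E) - 1) := by
    intro N x y hxy hx
    obtain ⟨x', hx'⟩ := hconj ((x : 𝓞 L) - 1)
    have h1 := hconjdvd N _ x' hx' hx
    have h2 : ((p : ℕ) : 𝓞 L) ^ N ∣ ((x : 𝓞 L) - 1) * (x' + 1) + x' :=
      (hx.mul_right _).add h1
    refine descend hp0 N ?_ h2
    simp only [map_sub, map_one, map_mul, map_add] at hx' ⊢
    rw [hxy, hx']
    ring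
  have hrad : ∀ i, ((u i : 𝓞 E) - 1) ∈ (Ideal.span {((p : ℕ) : 𝓞 E)}).radical := by
    intro i
    obtain ⟨x', hx'⟩ := hconj ((ε i : 𝓞 L) - 1)
    have h1 : x' ∈ (Ideal.span {((p : ℕ) : 𝓞 L)}).radical := by
      obtain ⟨e, he⟩ := hε i
      refine ⟨e, ?_⟩
      rw [Ideal.mem_span_singleton] at he ⊢
      have h2 := hconjdvd 1 (((ε i : 𝓞 L) - 1) ^ e) (x' ^ e)
        (by rw [map_pow, map_pow, map_pow, hx']) (by rwa [pow_one])
      rwa [pow_one] at h2
    have h2 : ((ε i : 𝓞 L) - 1) * (x' + 1) + x' ∈ (Ideal.span {((p : ℕ) : 𝓞 L)}).radical :=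
      Ideal.add_mem _ (Ideal.mul_mem_right _ _ (hε i)) h1
    obtain ⟨e, he⟩ := h2
    refine ⟨e, ?_⟩
    rw [Ideal.mem_span_singleton] at he ⊢
    have h3 := descend (E := E) hp0 1 (y := ((u i : 𝓞 E) - 1) ^ e)
      (z := (((ε i : 𝓞 L) - 1) * (x' + 1) + x') ^ e) (by
        simp only [map_sub, map_one, map_mul, map_add, map_pow] at hx' ⊢
        rw [hu i, hx']
        ring) (by rwa [pow_one])
    rwa [pow_one] at h3
  obtain ⟨r, A, w, hw, h1, h2⟩ := leo_gen hE u hrad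
  refine ⟨r, A, w, hw, fun c hc => ?_, fun a m ha hm => h2 a m ha fun N => ?_⟩
  · have h3 := h1 c hc
    have h4 := congrArg (fun x : (𝓞 E)ˣ => algebraMap E L (cl E (x : 𝓞 E))) h3
    simp only [Units.val_pow_eq_pow_val, Units.val_one, map_pow, map_one] at h4
    rw [hprod c, mul_pow] at h4
    rw [map_pow]
    exact h4
  · filter_upwards [hm N] with k hk
    exact hcong N _ _ (hprod (m k)) hk

/-- BIQ, for every prime -/
theorem biq_gen {p : ℕ} [hp : Fact p.Prime] (E₁ E₂ E₃ L : Type) [Field L] [NumberField L]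
    [Field E₁] [NumberField E₁] [Field E₂] [NumberField E₂] [Field E₃] [NumberField E₃]
    [Algebra E₁ L] [Algebra E₂ L] [Algebra E₃ L] (a b : L →+* L)
    (haa : ∀ x, a (a x) = x) (hbb : ∀ x, b (b x) = x) (hab : ∀ x, a (b x) = b (a x))
    (ha : ∀ x : L, a x = x → ∃ y : E₁, algebraMap E₁ L y = x)
    (hb : ∀ x : L, b x = x → ∃ y : E₂, algebraMap E₂ L y = x)
    (hc : ∀ x : L, a (b x) = x → ∃ y : E₃, algebraMap E₃ L y = x)
    (h1 : LeopoldtAt E₁ p) (h2 : LeopoldtAt E₂ p) (h3 : LeopoldtAt E₃ p) : LeopoldtAt L p := by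
  intro n ε hε hind α m hα hm
  obtain ⟨r₁, A₁, w₁, hw₁, hA₁, hB₁⟩ := norm_step a haa ha h1 ε hε
  obtain ⟨r₂, A₂, w₂, hw₂, hA₂, hB₂⟩ := norm_step b hbb hb h2 ε hε
  obtain ⟨r₃, A₃, w₃, hw₃, hA₃, hB₃⟩ := norm_step (a.comp b) (fun x => by
    show a (b (a (b x))) = x
    rw [← hab (b x), haa, hbb]) hc h3 ε hε
  refine gram (κ := Fin r₁ ⊕ (Fin r₂ ⊕ Fin r₃)) (fun i j => Sum.elim (A₁ i)
    (Sum.elim (A₂ i) (A₃ i)) j) ?_ α ?_
  · intro c hc
    have k1 := hA₁ c (fun j => hc (Sum.inl j))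
    have k2 := hA₂ c (fun j => hc (Sum.inr (Sum.inl j)))
    have k3 := hA₃ c (fun j => hc (Sum.inr (Sum.inr j)))
    obtain ⟨x, hx⟩ : ∃ x : L, x = cl L ((∏ i, ε i ^ c i : (𝓞 L)ˣ) : 𝓞 L) := ⟨_, rfl⟩
    rw [← hx] at k1 k2 k3
    obtain ⟨X, hX⟩ : ∃ X : L, X = x ^ (w₁ * w₂ * w₃) := ⟨_, rfl⟩
    have l1 : X * a X = 1 := by
      have : X = (x ^ w₁) ^ (w₂ * w₃) := by rw [hX, ← pow_mul, mul_assoc]
      rw [this, map_pow, ← mul_pow, k1, one_pow]
    have l2 : X * b X = 1 := by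
      have : X = (x ^ w₂) ^ (w₁ * w₃) := by
        rw [hX, ← pow_mul]
        congr 1
        ring
      rw [this, map_pow, ← mul_pow, k2, one_pow]
    have l3 : X * a (b X) = 1 := by
      have : X = (x ^ w₃) ^ (w₁ * w₂) := by
        rw [hX, ← pow_mul]
        congr 1
        ring
      have h4 : (x ^ w₃) * a (b (x ^ w₃)) = 1 := k3
      rw [this, map_pow, map_pow, ← mul_pow, h4, one_pow]
    have hX0 : X ≠ 0 := left_ne_zero_of_mul_eq_one l1
    have haX : a X = X⁻¹ := eq_inv_of_mul_eq_one_right l1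
    have hbX : b X = X⁻¹ := eq_inv_of_mul_eq_one_right l2
    rw [hbX, map_inv₀, haX, inv_inv] at l3
    have h5 : (∏ i, ε i ^ c i) ^ (2 * (w₁ * w₂ * w₃)) = 1 := by
      apply Units.ext
      apply cl_inj
      rw [Units.val_pow_eq_pow_val, map_pow, ← hx, Units.val_one, map_one, mul_comm, pow_mul,
        ← hX, sq, l3]
    have h6 : ∏ i, ε i ^ (c i * ((2 * (w₁ * w₂ * w₃) : ℕ) : ℤ)) = 1 := by
      rw [← h5, ← Finset.prod_pow]
      exact Finset.prod_congr rfl fun i _ => by rw [zpow_mul, zpow_natCast]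
    have h7 := hind _ h6
    funext i
    have h8 := congrFun h7 i
    have h9 : ((2 * (w₁ * w₂ * w₃) : ℕ) : ℤ) ≠ 0 := by positivity
    exact (mul_eq_zero.1 h8).resolve_right h9
  · rintro (j | j | j)
    · exact hB₁ α m hα hm j
    · exact hB₂ α m hα hm j
    · exact hB₃ α m hα hm j

theorem biq : BiqStmt := by
  intro k E₁ E₂ E₃ L _ _ _ _ _ _ _ _ _ _ _ _ _ _ a b _ _ _ _ haa hbb hab ha hb hc h1 h2 h3
  exact biq_gen E₁ E₂ E₃ L (a : L →+* L) (b : L →+* L)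
    (fun x => by
      have := AlgEquiv.congr_fun haa x
      exact this)
    (fun x => by
      have := AlgEquiv.congr_fun hbb x
      exact this)
    (fun x => by
      have := AlgEquiv.congr_fun hab x
      exact this) ha hb hc h1 h2 h3

end Pool.Agent.Leo4.H90
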