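import Pool.Agent.Leo4.Stmts

/-! NUM: the numerical inequality. -/

set_option autoImplicit false

namespace Pool.Agent.Leo4.H90

theorem g_lo : (1618 / 1000 : ℝ) ≤ Real.goldenRatio := by
  have h : (2236 / 1000 : ℝ) ≤ Real.sqrt 5 := Real.le_sqrt_of_sq_le (by norm_num)
  rw [Real.goldenRatio]
  linarith

theorem g_hi : Real.goldenRatio ≤ (16181 / 10000 : ℝ) := by
  have h : Real.sqrt 5 ≤ (22362 / 10000 : ℝ) := (Real.sqrt_le_left (by norm_num)).2 (by norm_num)
  rw [Real.goldenRatio]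
  linarith

theorem log_hi : Real.log Real.goldenRatio ≤ 4814 / 10000 := by
  rw [Real.log_le_iff_le_exp Real.goldenRatio_pos]
  refine g_hi.trans ?_
  have h := Real.sum_le_exp_of_nonneg (x := (4814 / 10000 : ℝ)) (by norm_num) 6
  refine le_trans ?_ h
  simp only [Finset.sum_range_succ, Finset.sum_range_zero, Nat.factorial]
  norm_num

theorem log_lo : (48 / 100 : ℝ) ≤ Real.log Real.goldenRatio := by
  rw [Real.le_log_iff_exp_le Real.goldenRatio_pos]
  refine le_trans ?_ g_lo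
  have h := Real.exp_bound' (x := (48 / 100 : ℝ)) (by norm_num) (by norm_num) (n := 6) (by norm_num)
  refine h.trans ?_
  simp only [Finset.sum_range_succ, Finset.sum_range_zero, Nat.factorial]
  norm_num

theorem num : NumStmt := by
  unfold NumStmt g
  obtain ⟨s, hs⟩ : ∃ s : ℝ, s = Real.sqrt 5 := ⟨_, rfl⟩
  obtain ⟨L, hL⟩ : ∃ L : ℝ, L = Real.log Real.goldenRatio := ⟨_, rfl⟩
  have hs0 : (2236 / 1000 : ℝ) ≤ s := by
    rw [hs]
    exact Real.le_sqrt_of_sq_le (by norm_num)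
  have hs2 : s ^ 2 = 5 := by
    rw [hs]
    exact Real.sq_sqrt (by norm_num)
  have h1 : L ≤ 4814 / 10000 := by rw [hL]; exact log_hi
  have h2 : 48 / 100 ≤ L := by rw [hL]; exact log_lo
  rw [← hs, ← hL]
  have hp := Real.pi_lt_d4
  have hp0 := Real.pi_pos
  have hpi : Real.pi ^ 2 ≤ 98698 / 10000 := by nlinarith
  have hpL : Real.pi ^ 2 * L ≤ 98698 / 10000 * (4814 / 10000) :=
    mul_le_mul hpi h1 (by linarith) (by norm_num)
  have h3 : (9 / 10 : ℝ) * (L / (12 * s)) = 15 / 1000 * (s * L) := by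
    have : s ≠ 0 := by positivity
    field_simp
    rw [hs2]
    ring
  rw [h3]
  have h4 : (259200 / 6 ^ 8 * (s * Real.pi ^ 2 * L ^ 2 / 50) : ℝ) =
      (259200 / 6 ^ 8 / 50) * (Real.pi ^ 2 * L) * (s * L) := by ring
  rw [h4]
  have h5 : (2236 / 1000 : ℝ) * (48 / 100) ≤ s * L := mul_le_mul hs0 h2 (by norm_num) (by linarith)
  have h6 : (259200 / 6 ^ 8 / 50 : ℝ) * (Real.pi ^ 2 * L) ≤
      (259200 / 6 ^ 8 / 50) * (98698 / 10000 * (4814 / 10000)) :=
    mul_le_mul_of_nonneg_left hpL (by norm_num)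
  have h7 : (259200 / 6 ^ 8 / 50 : ℝ) * (98698 / 10000 * (4814 / 10000)) ≤ 14666 / 1000000 := by
    norm_num
  nlinarith [mul_le_mul_of_nonneg_right (h6.trans h7) (by nlinarith : (0 : ℝ) ≤ s * L)]

end Pool.Agent.Leo4.H90
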